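import Pool.Agent.H.MP_7783b9_co.Final

/-!
MP_7783b9_co: the Fano-good hypergraphs among the 3-uniform hypergraphs without Berge cycles.
-/

namespace Pool.Agent.Results.MP_7783b9_co.AcyclicFanoGood

open Pool.MP7783b9

/-- A 3-uniform hypergraph with acyclic incidence graph is `F`-good if and only if it is
connected and does not have exactly one edge, or consists of one edge and one isolated
vertex. -/
theorem result {V : Type*} [Fintype V] (E : Finset (Finset V)) (h3 : ∀ f ∈ E, f.card = 3)
    (hac : (incidence E).IsAcyclic) :
    FanoGood E ↔
      ((incidence E).Connected ∧ E.card ≠ 1) ∨ (Fintype.card V = 4 ∧ E.card = 1) := by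
  classical
  exact main E h3 hac

end Pool.Agent.Results.MP_7783b9_co.AcyclicFanoGood
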