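import Pool.Agent.H.MP_7783b9_co.W.FinalA

/-!
MP_7783b9_co: the asymptotic value of the Ramsey number for tightly connected hyperfinite
hypergraphs.
-/

namespace Pool.Agent.Results.MP_7783b9_co.AsymptoticValue

open Pool.MP7783b9

/-- `(V, E)` is `K`-hyperfinite: for every `k ≥ 1` one can delete a set `S` of at most `|V| / k`
vertices and split the other vertices (by `c`) into pieces with at most `K k` vertices such that no
edge contains undeleted vertices of two different pieces. -/
def IsHyperfinite {V : Type*} [Fintype V] [DecidableEq V] (E : Finset (Finset V)) (K : ℕ → ℕ) :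
    Prop :=
  ∀ k, 0 < k → ∃ (S : Finset V) (c : V → ℕ), k * S.card ≤ Fintype.card V ∧
    (∀ i, (Finset.univ.filter fun x => x ∉ S ∧ c x = i).card ≤ K k) ∧
    ∀ f ∈ E, ∀ x ∈ f, ∀ y ∈ f, x ∉ S → y ∉ S → c x = c y

/-- `(V, E)` is tightly connected: every vertex lies in an edge, and any two edges are joined
by a sequence of edges in which consecutive edges share at least two vertices. -/
def TightlyConnected {V : Type*} [DecidableEq V] (E : Finset (Finset V)) : Prop :=
  (∀ v : V, ∃ e ∈ E, v ∈ e) ∧ ∀ e ∈ E, ∀ e' ∈ E,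
    Relation.ReflTransGen (fun a b => a ∈ E ∧ b ∈ E ∧ 2 ≤ (a ∩ b).card) e e'

/-- Let `H = (V, E)` be a tightly connected `K`-hyperfinite 3-uniform hypergraph with `n` vertices
and maximum degree at most `Δ`, let `I` be a strongly independent set (it meets every edge in at
most one vertex) of maximum size `a`, and let `M = max (2 n - 1) (3 (n - a) - 2)`. Then
`M ≤ r(H, F) ≤ M + ε n`, for all `ε > 0` and all `n ≥ n₀(Δ, K, ε)`. -/
theorem result (Δ : ℕ) (K : ℕ → ℕ) (ε : ℝ) (hε : 0 < ε) :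
    ∃ n₀ : ℕ, ∀ {V : Type*} [Fintype V] [DecidableEq V] (E : Finset (Finset V))
      (_ : ∀ f ∈ E, f.card = 3) (_ : ∀ x, (E.filter fun f => x ∈ f).card ≤ Δ)
      (_ : TightlyConnected E) (_ : IsHyperfinite E K) (I : Finset V)
      (_ : ∀ e ∈ E, (e ∩ I).card ≤ 1)
      (_ : ∀ J : Finset V, (∀ e ∈ E, (e ∩ J).card ≤ 1) → J.card ≤ I.card)
      (_ : n₀ ≤ Fintype.card V),
      max (2 * Fintype.card V - 1) (3 * (Fintype.card V - I.card) - 2) ≤ ramsey E ∧
      (ramsey E : ℝ) ≤
        (max (2 * Fintype.card V - 1) (3 * (Fintype.card V - I.card) - 2) : ℕ) +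
          ε * (Fintype.card V : ℝ) := by
  obtain ⟨n₀, h⟩ := asym_hf Δ K ε hε
  refine ⟨n₀, fun E h3 hdeg ht hK I hI hmax hn => ?_⟩
  obtain ⟨h1, h2⟩ := h E h3 hdeg hK I hI hmax hn
  exact ⟨h2 ht, h1⟩

end Pool.Agent.Results.MP_7783b9_co.AsymptoticValue
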