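import Pool.Agent.H.MP_7783b9_co.W.FinalW

/-!
MP_7783b9_co: connected hyperfinite 3-uniform hypergraphs of bounded degree which have a strongly
independent set with more than a third of the vertices are Fano-good.
-/

namespace Pool.Agent.Results.MP_7783b9_co.HyperfiniteGood

open Pool.MP7783b9

/-- `(V, E)` is `K`-hyperfinite: for every `k ≥ 1` one can delete a set `S` of at most `|V| / k`
vertices such that the rest falls into pieces with at most `K k` vertices each: `c x` is the name
of the piece of `x`, and two vertices outside `S` in a common edge lie in the same piece. -/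
def IsHyperfinite {V : Type*} [Fintype V] [DecidableEq V] (E : Finset (Finset V)) (K : ℕ → ℕ) :
    Prop :=
  ∀ k, 0 < k → ∃ (S : Finset V) (c : V → ℕ), k * S.card ≤ Fintype.card V ∧
    (∀ i, (Finset.univ.filter fun x => x ∉ S ∧ c x = i).card ≤ K k) ∧
    ∀ f ∈ E, ∀ x ∈ f, ∀ y ∈ f, x ∉ S → y ∉ S → c x = c y

/-- For all `Δ`, `K` and `δ > 0` there is `n₀` such that every connected 3-uniform hypergraph
with `n ≥ n₀` vertices, all degrees at most `Δ`, which is `K`-hyperfinite and has a strongly
independent set `I` (no edge contains two of its vertices) with `|I| ≥ (1/3 + δ) n`, is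
`F`-good. -/
theorem result (Δ : ℕ) (K : ℕ → ℕ) (δ : ℝ) (hδ : 0 < δ) :
    ∃ n₀ : ℕ, ∀ {V : Type*} [Fintype V] [DecidableEq V] (E : Finset (Finset V)),
      (∀ f ∈ E, f.card = 3) → (∀ x, (E.filter fun f => x ∈ f).card ≤ Δ) →
      (incidence E).Connected → IsHyperfinite E K →
      ∀ I : Finset V, (∀ f ∈ E, (f ∩ I).card ≤ 1) →
        (1 / 3 + δ) * (Fintype.card V : ℝ) ≤ (I.card : ℝ) →
        n₀ ≤ Fintype.card V → FanoGood E := by
  obtain ⟨n₀, h⟩ := good_hf Δ K δ hδ
  refine ⟨n₀, ?_⟩
  intro V _ _ E h3 hdeg hc hK I hI hIc hn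
  exact h E h3 hdeg hc hK I hI hIc hn

end Pool.Agent.Results.MP_7783b9_co.HyperfiniteGood
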