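import Pool.Agent.H.MP_7783b9_co.X.FinalX

/-!
MP_7783b9_co: the exact Ramsey number of the Fano plane and an almost tripartite hyperfinite
3-uniform hypergraph, in particular of a tight cycle.
-/

namespace Pool.Agent.Results.MP_7783b9_co.TripartiteExact

open Pool.MP7783b9

/-- `(V, E)` is `K`-hyperfinite: for every `k ≥ 1` one can delete a set `S` of at most `|V| / k`
vertices and split the other vertices (by `c`) into pieces with at most `K k` vertices such that no
edge contains undeleted vertices of two different pieces. -/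
def IsHyperfinite {V : Type*} [Fintype V] [DecidableEq V] (E : Finset (Finset V)) (K : ℕ → ℕ) :
    Prop :=
  ∀ k, 0 < k → ∃ (S : Finset V) (c : V → ℕ), k * S.card ≤ Fintype.card V ∧
    (∀ i, (Finset.univ.filter fun x => x ∉ S ∧ c x = i).card ≤ K k) ∧
    ∀ f ∈ E, ∀ x ∈ f, ∀ y ∈ f, x ∉ S → y ∉ S → c x = c y

/-- `(V, E)` is tightly connected: every vertex lies in an edge, and any two edges are joined
by a sequence of edges in which consecutive edges share at least two vertices. -/
def TightlyConnected {V : Type*} [DecidableEq V] (E : Finset (Finset V)) : Prop :=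
  (∀ v : V, ∃ e ∈ E, v ∈ e) ∧ ∀ e ∈ E, ∀ e' ∈ E,
    Relation.ReflTransGen (fun a b => a ∈ E ∧ b ∈ E ∧ 2 ≤ (a ∩ b).card) e e'

/-- The tight cycle with the vertices `0, ..., n - 1`: the edges are the `n` triples of cyclically
consecutive vertices. -/
def TightCycle (n : ℕ) : Finset (Finset (Fin n)) :=
  Finset.univ.image fun i : Fin n =>
    Finset.univ.filter fun j : Fin n =>
      (j : ℕ) = (i : ℕ) ∨ (j : ℕ) = ((i : ℕ) + 1) % n ∨ (j : ℕ) = ((i : ℕ) + 2) % n

/-- Let `H = (V, E)` be a `K`-hyperfinite 3-uniform hypergraph with `n` vertices and maximum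
degree at most `Δ` which is tripartite up to `s` vertices: `col` colours the vertices with three
colours such that every edge disjoint from `S` (`|S| ≤ s`) has three different colours, and the
colour class `I` is strongly independent (it meets every edge in at most one vertex). Let
`M = max (2 n - 1) (3 (n - |I|) - 2)` and `n ≥ n₀(Δ, K, s)`. Then `r(H, F) ≤ M`; `r(H, F) = M` if
`H` is tightly connected and `I` is a largest strongly independent set; and if `|I| ≥ n / 3`, then
`H` is `F`-good if and only if `H` is connected. In particular, for large `n` a tripartite such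
`H` is `F`-good if and only if it is connected, and the tight cycle `C` with `n` vertices has
`r(C, F) = 2 n` if `n` is congruent to `2` modulo `3`, and `r(C, F) = 2 n - 1` otherwise. -/
theorem result :
    (∀ (Δ : ℕ) (K : ℕ → ℕ) (s : ℕ), ∃ n₀ : ℕ,
      ∀ {V : Type*} [Fintype V] [DecidableEq V] (E : Finset (Finset V))
      (_ : ∀ f ∈ E, f.card = 3) (_ : ∀ x, (E.filter fun f => x ∈ f).card ≤ Δ)
      (_ : IsHyperfinite E K) (col : V → Fin 3) (S : Finset V) (_ : S.card ≤ s)
      (_ : ∀ f ∈ E, Disjoint f S → ∀ x ∈ f, ∀ y ∈ f, x ≠ y → col x ≠ col y)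
      (I : Finset V) (_ : ∀ e ∈ E, (e ∩ I).card ≤ 1) (_ : ∀ x, x ∈ I ↔ col x = 0)
      (_ : n₀ ≤ Fintype.card V),
      ramsey E ≤ max (2 * Fintype.card V - 1) (3 * (Fintype.card V - I.card) - 2) ∧
      (TightlyConnected E →
        (∀ J : Finset V, (∀ e ∈ E, (e ∩ J).card ≤ 1) → J.card ≤ I.card) →
        ramsey E = max (2 * Fintype.card V - 1) (3 * (Fintype.card V - I.card) - 2)) ∧
      (Fintype.card V ≤ 3 * I.card → (FanoGood E ↔ (incidence E).Connected))) ∧
    (∀ (Δ : ℕ) (K : ℕ → ℕ), ∃ n₀ : ℕ,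
      ∀ {V : Type*} [Fintype V] [DecidableEq V] (E : Finset (Finset V))
      (_ : ∀ f ∈ E, f.card = 3) (_ : ∀ x, (E.filter fun f => x ∈ f).card ≤ Δ)
      (_ : IsHyperfinite E K) (col : V → Fin 3)
      (_ : ∀ f ∈ E, ∀ x ∈ f, ∀ y ∈ f, x ≠ y → col x ≠ col y) (_ : n₀ ≤ Fintype.card V),
      FanoGood E ↔ (incidence E).Connected) ∧
    ∃ n₀ : ℕ, ∀ n, n₀ ≤ n →
      ramsey (TightCycle n) = if n % 3 = 2 then 2 * n else 2 * n - 1 := by
  refine ⟨fun Δ K s => ?_, fun Δ K => ?_, cycle_x⟩
  · obtain ⟨n₀, h⟩ := exact_x Δ K s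
    refine ⟨n₀, fun E h3 hdeg hK col S hS hcol I hI hIc hn => ?_⟩
    obtain ⟨h1, h2, -, h4⟩ := h E h3 hdeg hK col S hS hcol I hI hIc hn
    exact ⟨h1, h2, h4⟩
  · obtain ⟨n₀, h⟩ := tripartite_x Δ K
    exact ⟨n₀, fun E h3 hdeg hK col hcol hn => h E h3 hdeg hK col hcol hn⟩

end Pool.Agent.Results.MP_7783b9_co.TripartiteExact
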